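import Pool.Agent.Helper446_ENG.CaseI2
import Pool.Agent.Helper446_ENG.CaseII

/-! # MP_a5aec7_al, Q1: every minimal non-Engel variety of associative rings is a Cross variety

Sketch. Let `V` be a variety of (nonunital) rings.

*Case I.* For no `n` does `V` satisfy an identity `[x,_n y] = g(x,y)` all of whose monomials on the right have degree `≥ 2`
in `x`. Then by the Nullstellensatz over `ℤ` (applied to the `ℤ[s,t]`-module generated by `x` in the relatively free ring
modulo the square of the ideal `(x)`) `V` contains a non-Engel ring of upper triangular `2 × 2` matrices over a finite field `K`,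
generated by `e₁₂` and `diag(s, t)`, `s ≠ t`.

*Case II.* `V` satisfies such an identity. Then `V` is Engel: otherwise there is a ring in `V` with elements `a, b`, all
`[a,_N b] ≠ 0`, such that every nonzero ideal contains some `[a,_N b]`. The identity makes it prime, then (Levitzki) reduced,
so a domain; a domain with the identity is commutative: if `y` commutes with `c₁, …, c_m` (`m` depending only on `g`) all of
whose nonempty subset sums are nonzero, an alternating sum over subsets of `g(c x, y) = c [x,_n y]`,
`c = ∑_{i ∈ s} c_i`, gives `[x,_n y] = 0`; this reduces the problem to domains with an Engel identity and to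
periodic domains (Jacobson).

A minimal non-Engel variety `V` is thus in Case I and is generated by a finite ring of upper triangular matrices. It satisfies
the finitely many identities `p x = 0`, `u v = u t v = 0` for `u, v` of the form `x^q - x` or `[x, y]`, `q = |K|`. Every
subdirectly irreducible ring with these identities has at most `q³` elements, from which it follows that every variety
satisfying these identities is a Cross variety. -/

namespace Pool.Agent.Results.MP_a5aec7_al.CrossVarieties

open Pool.Agent.Helper446_ENG

/-- A minimal non-Engel variety is generated by a (finite) ring of upper triangular `2 × 2` matrices over a finite field, and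
satisfies the identities `basis p (p ^ f)`. -/
theorem structure_of_minNonEngel (T : Set RTerm) (hT : IsMinNonEngel T) :
    ∃ (K : Type) (_ : Field K) (_ : Finite K) (B : NonUnitalSubring (Matrix (Fin 2) (Fin 2) K)),
      (∀ M ∈ B, M 1 0 = 0) ∧ (∃ p f : ℕ, p.Prime ∧ 1 ≤ f ∧ Sat B (basis p (p ^ f))) ∧
      ∀ (R : Type) [NonUnitalRing R], Sat R T ↔ Sat R {t | ∀ v : ℕ → B, t.eval v = 0} := by
  rcases dichotomy T with ⟨n, hn, g, hg, hE⟩ | ⟨K, _, _, B, hupp, hbasis, hBT, x, y, hxy⟩
  · exact absurd (engel_of_E T n hn g hg hE) hT.1
  · have hBI : Sat B {t | ∀ v : ℕ → B, t.eval v = 0} := fun t ht v => ht v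
    have hBT' : Sat B (T ∪ {t | ∀ v : ℕ → B, t.eval v = 0}) := sat_union.2 ⟨hBT, hBI⟩
    have hnE : ¬ IsEngel (T ∪ {t | ∀ v : ℕ → B, t.eval v = 0}) := by
      rintro ⟨n, -, h⟩
      exact hxy n (h B hBT' x y)
    refine ⟨K, inferInstance, inferInstance, B, hupp, hbasis, fun R _ => ⟨fun hR => ?_, fun h => ?_⟩⟩
    · by_contra hne
      apply hnE
      apply hT.2
      exact ⟨fun R _ h => (sat_union.1 h).1, R, inferInstance, hR, fun h => hne (sat_union.1 h).2⟩
    · exact h.mono (fun t ht v => hBT t ht v)

/-- Every minimal non-Engel variety of associative rings is a Cross variety. -/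
theorem result (T : Set RTerm) (hT : IsMinNonEngel T) : IsCross T := by
  obtain ⟨K, _, _, B, -, ⟨p, f, hp, hf, hbasis⟩, h⟩ := structure_of_minNonEngel T hT
  exact cross_of_resBdd (basis p (p ^ f)) (basis_finite _ _) _
    (fun S _ hS => resBdd_of_basis p f hp hf S hS) T
    (fun S _ hS => ((h S).1 hS).mono (fun t ht v => hbasis t ht v))

end Pool.Agent.Results.MP_a5aec7_al.CrossVarieties
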